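import Pool.Agent.Q46.SL.Tools
import Pool.Agent.Q46.SL.Dist

/-!
# Almost prime triples `x, x + 2, x + 6` (and general tuples) at the values of bilinear forms and distances over prime fields

We look for `x` such that all of `x + t_j`, `j < l`, have at most `R` prime factors, all larger than `p ^ κ`; the shifts `t_j` may be as large
as `p ^ B`. The triples `(x, x + 2, x + 6)` and `(x, x + 4, x + 6)` are the shift vectors `(0, 2, 6)` and `(0, 4, 6)`.

Let `p` be a large prime and let `A`, `B` be ARBITRARY sets of vectors with `d` coordinates in the field with `p` elements,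
`|A| |B| ≥ p ^ (d + ε)` (or more, if the values are restricted to a short interval). For all functions `f`, `g` many pairs `(a, b)` in
`A × B` are such that the least residue of `c a·b + f(a) + g(b)` has the property; for suitable `f`, `g` these are the distances
`∑ (a_i - b_i)²`. Here the property is: all `x + t_j` have at most `R` prime factors, all larger than `p ^ κ`. The lower bound is of the expected order of magnitude (`m = 0`).

In addition the numbers avoid arbitrary residue classes, at most `m` classes `E q` modulo each prime `q ≤ z`, as long as there is no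
local obstruction; `m = 0` is the case without classes. The exponent `κ`, the number `R` and the constant `cc` do not depend on the
classes.

Design and proof: helper46 (modules `Pool.Agent.Q46.SV.*`, `Pool.Agent.Q46.SL.*`): the vectors of the residues in question are
equidistributed modulo all small integers with a power saving, by bounds for exponential sums; the fundamental lemma of the
sieve is applied to the vectors.
-/

set_option autoImplicit false

namespace Pool.Agent.Results.MP_c0d11e_nt.DistancesOverPrimeFields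

open Finset Polynomial
open Pool.Agent.Q46.SL hiding Almost

/-- `n` is not zero and has at most `R` prime factors (counted with multiplicity), all larger than `z` -/
def Almost (z : ℝ) (R : ℕ) (n : ℤ) : Prop :=
  n ≠ 0 ∧ n.natAbs.primeFactorsList.length ≤ R ∧ ∀ q : ℕ, q.Prime → (q : ℤ) ∣ n → z < q

/-- `x` is positive, all `x + t_j` have at most `R` prime factors, all larger than `z`, and `x` avoids the classes `E q`, `q ≤ z` -/
def Good {l : ℕ} (t : Fin l → ℤ) (z : ℝ) (R : ℕ) (E : ℕ → Finset ℕ) (x : ℤ) : Prop :=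
  0 < x ∧ (∀ j, Almost z R (x + t j)) ∧ ∀ q : ℕ, q.Prime → (q : ℝ) ≤ z → (x % q).toNat ∉ E q

/-- `E q` has at most `m` elements, and some residue `a` outside `E q` has `q ∤ a + t_j` for all `j` -/
def Adm {l : ℕ} (t : Fin l → ℤ) (m : ℕ) (E : ℕ → Finset ℕ) : Prop :=
  ∀ q : ℕ, q.Prime → (E q).card ≤ m ∧ ∃ a < q, a ∉ E q ∧ ∀ j, ¬ (q : ℤ) ∣ a + t j

/-- the polynomials and the classes -/
noncomputable def sysE {l : ℕ} (t : Fin l → ℤ) (m : ℕ) (E : ℕ → Finset ℕ) (hE : Adm t m E) : PE l m l where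
  f := fun j => X + C (t j)
  E := E
  deg := by
    have h1 : ∀ j : Fin l, (X + C (t j) : ℤ[X]).natDegree ≤ 1 := fun j => by compute_degree
    refine (sum_le_sum fun j _ => h1 j).trans ?_
    simp
  adm := by
    intro q hq
    obtain ⟨h1, a, ha, haE, h2⟩ := hE q hq
    refine ⟨h1, a, ha, haE, fun j => ?_⟩
    simpa using h2 j

lemma good_of {l : ℕ} {t : Fin l → ℤ} {m B : ℕ} {E : ℕ → Finset ℕ} (hE : Adm t m E) {κ M : ℝ} (hM : (2 : ℝ) ≤ M)
    (hh : ∀ j, |(t j : ℝ)| ≤ M ^ B) {x : ℤ} (hN : Near (B + 1) (sysE t m E hE) κ M x) (hx : (x : ℝ) ≤ M) :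
    Good t (M ^ κ) ⌊(((B + 1) : ℕ) + (l : ℕ) + 1 : ℝ) / κ⌋₊ E x := by
  obtain ⟨h0, h12⟩ := hN
  obtain ⟨h1, h2⟩ := h12 (by
    intro j
    have hB : (1 : ℝ) ≤ M ^ B := one_le_pow₀ (by linarith)
    refine cb_mono (cb_add cb_X (cb_C (t j))) ?_
    rw [pow_succ]
    have := hh j
    nlinarith) hx
  refine ⟨h0, fun j => ?_, h2⟩
  simpa [sysE, Almost, Pool.Agent.Q46.SL.Almost] using h1 j

open Classical in
/-- the number of pairs `z` in `S` for which the least residue `y` of `F z` satisfies `u ≤ y < u + N` and has the property `P` -/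
noncomputable def hits {p : ℕ} {V : Type} (S : Finset (V × V)) (F : V × V → ZMod p) (u N : ℕ) (P : ℤ → Prop) : ℕ :=
  (S.filter (fun z => (u ≤ (F z).val ∧ (F z).val < u + N) ∧ P (F z).val)).card

/-- Almost prime tuples at the values of bilinear forms (and of the squared distance) of the elements of arbitrary large sets of vectors. -/
theorem result (l B m : ℕ) (ε : ℝ) (hε : 0 < ε) (hε1 : ε ≤ 1) :
    ∃ κ : ℝ, 0 < κ ∧ ∃ cc : ℝ, 0 < cc ∧ ∃ R p₀ : ℕ, ∀ p : ℕ, p₀ ≤ p → p.Prime → ∀ t : Fin l → ℤ, (∀ j, |(t j : ℝ)| ≤ (p : ℝ) ^ B) → ∀ E : ℕ → Finset ℕ, Adm t m E → ∀ (d : ℕ) (A B : Finset (Fin d → ZMod p)) (f g : (Fin d → ZMod p) → ZMod p) (c : ZMod p), c ≠ 0 →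
      ∀ u N : ℕ, u + N ≤ p → (p : ℝ) ^ ε ≤ N → (p : ℝ) ^ (d + 2 + ε) ≤ (N : ℝ) ^ 2 * A.card * B.card →
      cc * ((N : ℝ) * A.card * B.card / p) / Real.log p ^ (1 * (m + l)) ≤
        hits (A ×ˢ B) (fun z => c * ∑ i, z.1 i * z.2 i + f z.1 + g z.2) u N (Good t ((p : ℝ) ^ κ) R E) := by
  classical
  obtain ⟨κ, hκ, cc, hcc, p₀, h⟩ := Pool.Agent.Q46.SL.bilinear (Near (B + 1) : PE l m l → ℝ → ℝ → ℤ → Prop)
    (lg (m + l)) (fun r _ => csN l m l (B + 1) r) ε hε hε1
  refine ⟨κ, hκ, cc, hcc, ⌊(((B + 1) : ℕ) + (l : ℕ) + 1 : ℝ) / κ⌋₊, max 2 p₀, ?_⟩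
  intro p hp hpp t ht E hE d A B f g c hc u N hu hN hAB
  have hpr : (2 : ℝ) ≤ p := by exact_mod_cast (le_max_left _ _).trans hp
  have : Fact p.Prime := ⟨hpp⟩
  have key := h p ((le_max_right _ _).trans hp) (sysE t m E hE) hpp d A B f g c hc u N hu hN hAB
  refine le_trans (cnt le_rfl (by positivity) (log0 p) _ _) (key.trans ?_)
  unfold hits Pool.Agent.Q46.SL.good1
  refine Nat.cast_le.2 ?_
  apply card_le_card
  intro z hz
  rw [mem_filter, mem_Ico] at hz
  rw [mem_filter]
  exact ⟨hz.1, hz.2.1, good_of hE hpr ht hz.2.2 (by exact_mod_cast (ZMod.val_lt _).le)⟩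

end Pool.Agent.Results.MP_c0d11e_nt.DistancesOverPrimeFields
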